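import Pool.Agent.Run7.h205.OHS.Final

/-!
# Spectral bound and growth bound of positive semigroups on ordered Hilbert spaces

`H` is a real Hilbert space with a closed, normal, generating cone `C`, `E` (with `ι : H → E`) is
its complexification, and `T` is a strongly continuous semigroup (for instance, a strongly
continuous group) of bounded operators on `E` which map `C` into `C`. Then `ln ‖T t‖ / t` tends,
as `t → ∞`, to the spectral bound of the generator of `T`.
-/

open Run7.h205.OHS

namespace Pool.Agent.Results.MP_e5770a_an.SpectralEqualsGrowth

/-- **Theorem.** The growth bound of a strongly continuous semigroup of positive operators on (the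
complexification of) a Hilbert space ordered by a closed, normal, generating cone exists and equals
the spectral bound of its generator. -/
theorem result {H E : Type*}
    [NormedAddCommGroup H] [InnerProductSpace ℝ H] [CompleteSpace H]
    [NormedAddCommGroup E] [InnerProductSpace ℂ E] [CompleteSpace E]
    (ι : H → E) (hι : IsComplexification ι)
    (C : ProperCone ℝ H) (hnormal : IsNormalCone C) (hgenerating : IsGeneratingCone C)
    (T : ℝ → E →L[ℂ] E) (hT : IsC0Semigroup T)
    (hpos : ∀ t : ℝ, 0 ≤ t → ∀ x ∈ C, ∃ y ∈ C, T t (ι x) = ι y) :
    HasGrowthBound T (spectralBound T) :=
  main hι hnormal hgenerating hT hpos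

end Pool.Agent.Results.MP_e5770a_an.SpectralEqualsGrowth
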